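import Pool.Agent.Helper79_HMC.Words
import Pool.Agent.Common_CookLevin.CookLevin

/-!
# Squad HMC: tableaux as formulas, with exact numbers of satisfying assignments
-/

set_option autoImplicit false

namespace Pool.Agent.HMC

open Pool.Agent.Common_CookLevin

section Tab

variable {Col : Type} [Fintype Col]

open Classical in
/-- the cell `up * p + uw * (m + 1) + um * M + c` has at most one colour -/
noncomputable def amo (Col : Type) [Fintype Col] (up uw um c : ℕ) : List (List LLit) :=
  ((Finset.univ : Finset (Col × Col)).filter (fun x => x.1 ≠ x.2)).toList.map fun x =>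
    [clit false up uw um c x.1, clit false up uw um c x.2]

/-- the clauses for the beginning and the end -/
noncomputable def xHead (dummy start : Col) (Acc : Set Col) : List (List LLit) :=
  tHead dummy start Acc ++ amo Col 0 0 0 0 ++ amo Col 0 0 0 1

/-- the clauses for the first row -/
noncomputable def xRow (blank : Col) (ini gs : Bool → Col) :
    (Bool ⊕ Unit) ⊕ Unit → List (List LLit)
  | .inl (.inl b) => [clit true 1 0 0 2 (ini b)] :: amo Col 1 0 0 2
  | .inl (.inr ()) => [clit true 1 0 0 2 (gs false), clit true 1 0 0 2 (gs true)] ::
      amo Col 1 0 0 2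
  | .inr () => [clit true 1 0 0 2 blank] :: amo Col 1 0 0 2

/-- the clauses for the local rule -/
noncomputable def xRule (F : Col → Col → Col → Col → Col) : List (List LLit) :=
  tRule F ++ amo Col 1 1 0 1

/-- the formula -/
noncomputable def xForm (dummy start blank : Col) (ini gs : Bool → Col) (Acc : Set Col)
    (F : Col → Col → Col → Col → Col) (v : List (((Bool ⊕ Unit) ⊕ Unit) ⊕ Unit)) : CNF :=
  formula (xHead dummy start Acc) (xRow blank ini gs) (xRule F) v

end Tab

/-- TBC: number of satisfying assignments -/
def TbcStmt : Prop := ∀ (Col : Type) [Fintype Col] (dummy start blank : Col)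
  (ini gs : Bool → Col) (Acc : Set Col) (F : Col → Col → Col → Col → Col) (w : List Bool)
  (N T M : ℕ) (hW : 2 ≤ w.length + N + T + 1), 0 < T → gs false ≠ gs true →
  Bdd (Fintype.card Col * (w.length + N + T + M + 2)) (xForm dummy start blank ini gs Acc F
      ((twoPad w N T).map Sum.inl ++ List.replicate M (Sum.inr ()))) ∧
  nSat (Fintype.card Col * (w.length + N + T + M + 2)) (xForm dummy start blank ini gs Acc F
      ((twoPad w N T).map Sum.inl ++ List.replicate M (Sum.inr ()))) =
    {c : List Bool | c.length = N ∧ tabSeq (w.length + N + T + 1) hW F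
      (firstRow dummy start blank ini gs w c) (w.length + N + T + 1 + M) ∈ Acc}.ncard

/-- TBP: the formula is computable in polynomial time -/
def TbpStmt : Prop := ∀ (Col : Type) [Fintype Col] (dummy start blank : Col)
  (ini gs : Bool → Col) (Acc : Set Col) (F : Col → Col → Col → Col → Col),
  PolyFn (fun v : List (((Bool ⊕ Unit) ⊕ Unit) ⊕ Unit) =>
    encI (Fintype.card Col * (v.length + 2)) (xForm dummy start blank ini gs Acc F v))

end Pool.Agent.HMC
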