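import Pool.Agent.Helper79_HMC.Defs

/-!
# Squad HMC: coloured cubic graphs and gems
-/

set_option autoImplicit false

namespace Pool.Agent.HMC

/-! ## Coloured cubic graphs -/

/-- A cubic bipartite graph on `X` with a proper colouring of the edges by three colours:
`a i x` is the neighbour of `x` along the edge of colour `i`. -/
structure CG (X : Type) where
  a : Fin 3 → X → X
  col : X → Bool
  inv : ∀ i x, a i (a i x) = x
  hcol : ∀ i x, col (a i x) = !col x
  ne : ∀ i j x, i ≠ j → a i x ≠ a j x

namespace CG

variable {X : Type}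

/-- the graph -/
def graph (C : CG X) : SimpleGraph X where
  Adj x y := ∃ i, C.a i x = y
  symm := ⟨by
    rintro x y ⟨i, rfl⟩
    exact ⟨i, C.inv i x⟩⟩
  loopless := ⟨by
    rintro x ⟨i, h⟩
    have := C.hcol i x
    rw [h] at this
    cases hx : C.col x <;> simp [hx] at this⟩

theorem graph_adj (C : CG X) (x y : X) : C.graph.Adj x y ↔ ∃ i, C.a i x = y := Iff.rfl

theorem adj_a (C : CG X) (i : Fin 3) (x : X) : C.graph.Adj x (C.a i x) := ⟨i, rfl⟩

/-- one step along a colour different from `i` -/
def frel (C : CG X) (i : Fin 3) (x y : X) : Prop := ∃ j, j ≠ i ∧ C.a j x = y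

/-- number of the two-coloured cycles (faces) -/
noncomputable def nF (C : CG X) : ℕ := ∑ i, Nat.card (Quot (C.frel i))

/-- Euler's formula: `V - E + F = 2`, `E = 3 V / 2` -/
def Euler (C : CG X) : Prop := 2 * C.nF = Nat.card X + 4

/-- two faces have at most one edge in common -/
def Tight (C : CG X) : Prop := ∀ (i : Fin 3) (x y : X),
  (∀ j, j ≠ i → Quot.mk (C.frel j) x = Quot.mk (C.frel j) y) → y = x ∨ y = C.a i x

/-- transport along a bijection -/
def map {Y : Type} (C : CG X) (e : X ≃ Y) : CG Y where
  a i y := e (C.a i (e.symm y))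
  col y := C.col (e.symm y)
  inv i y := by simp [C.inv]
  hcol i y := by simp [C.hcol]
  ne i j y h := by
    intro h'
    exact C.ne i j _ h (e.injective h')

theorem map_adj {Y : Type} (C : CG X) (e : X ≃ Y) (x y : X) :
    (C.map e).graph.Adj (e x) (e y) ↔ C.graph.Adj x y := by
  constructor
  · rintro ⟨i, h⟩
    refine ⟨i, e.injective ?_⟩
    simpa [map] using h
  · rintro ⟨i, h⟩
    refine ⟨i, ?_⟩
    simp [map, h]

/-- the third colour -/
def third (i j : Fin 3) : Fin 3 := -(i + j)

/-- Insertion of a hexagon around the vertex `x₀`: `x₀` is joined to `q 0, q 1, q 2`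
(`q i = (i, true)`), `q i` to `p j` for `j ≠ i` (`p i = (i, false)`), and `p i` to the old
neighbour `a i x₀` of `x₀`.  This replaces `x₀` by a cube without a vertex. -/
def insA [DecidableEq X] (C : CG X) (x₀ : X) (i : Fin 3) :
    X ⊕ (Fin 3 × Bool) → X ⊕ (Fin 3 × Bool)
  | .inl y => if y = x₀ then .inr (i, true) else if y = C.a i x₀ then .inr (i, false)
      else .inl (C.a i y)
  | .inr (j, false) => if j = i then .inl (C.a i x₀) else .inr (third i j, true)
  | .inr (j, true) => if j = i then .inl x₀ else .inr (third i j, false)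

/-- the colouring of the vertices after the insertion -/
def insCol (C : CG X) (x₀ : X) : X ⊕ (Fin 3 × Bool) → Bool
  | .inl y => C.col y
  | .inr (_, b) => xor (C.col x₀) b

theorem third_third (i j : Fin 3) : third i (third i j) = j := by
  unfold third; revert i j; decide

theorem third_ne (i j : Fin 3) (h : j ≠ i) : third i j ≠ i ∧ third i j ≠ j := by
  unfold third; revert i j; decide

/-- the insertion of a hexagon -/
def ins [DecidableEq X] (C : CG X) (x₀ : X) : CG (X ⊕ (Fin 3 × Bool)) where
  a := C.insA x₀
  col := C.insCol x₀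
  inv := by
    intro i x
    match x with
    | .inl y =>
      by_cases h : y = x₀
      · subst h; simp [insA]
      · by_cases h' : y = C.a i x₀
        · subst h'; simp [insA, h]
        · have h1 : C.a i y ≠ x₀ := by
            intro h2; apply h'; rw [← h2, C.inv]
          have h2 : C.a i y ≠ C.a i x₀ := by
            intro h2; apply h; have := congrArg (C.a i) h2; rwa [C.inv, C.inv] at this
          simp [insA, h, h', h1, h2, C.inv]
    | .inr (j, false) =>
      by_cases h : j = i
      · subst h
        have h1 : C.a j x₀ ≠ x₀ := by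
          intro h2
          have := C.hcol j x₀
          rw [h2] at this
          cases hx : C.col x₀ <;> simp [hx] at this
        simp [insA, h1]
      · simp [insA, h, (third_ne i j h).1, third_third]
    | .inr (j, true) =>
      by_cases h : j = i
      · subst h; simp [insA]
      · simp [insA, h, (third_ne i j h).1, third_third]
  hcol := by
    intro i x
    match x with
    | .inl y =>
      by_cases h : y = x₀
      · subst h; simp [insA, insCol]
      · by_cases h' : y = C.a i x₀
        · subst h'; simp [insA, insCol, h, C.hcol]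
        · simp [insA, insCol, h, h', C.hcol]
    | .inr (j, false) =>
      by_cases h : j = i
      · subst h; simp [insA, insCol, C.hcol]
      · simp [insA, insCol, h]
    | .inr (j, true) =>
      by_cases h : j = i
      · subst h; simp [insA, insCol]
      · simp [insA, insCol, h]
  ne := by
    intro i j x hij
    have hk : ∀ m n : Fin 3, m ≠ n → C.a m x₀ ≠ C.a n x₀ := fun m n h => C.ne m n x₀ h
    have ht : ∀ i j m : Fin 3, i ≠ j → third i m ≠ third j m := by
      unfold third; decide
    match x with
    | .inl y =>
      by_cases h : y = x₀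
      · subst h; simp [insA, hij]
      · by_cases h1 : y = C.a i x₀
        · have h2 : y ≠ C.a j x₀ := by rw [h1]; exact hk i j hij
          simp only [insA, if_neg h, if_pos h1, if_neg h2]
          exact Sum.inr_ne_inl
        · by_cases h2 : y = C.a j x₀
          · simp only [insA, if_neg h, if_pos h2, if_neg h1]
            exact Sum.inl_ne_inr
          · simp [insA, h, h1, h2, C.ne i j y hij]
    | .inr (m, false) =>
      by_cases h : m = i
      · subst h
        simp [insA, hij]
      · by_cases h' : m = j
        · subst h'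
          simp [insA, h]
        · simp only [insA, h, h', if_false]
          intro h2
          exact ht i j m hij (Prod.mk.inj (Sum.inr.inj h2)).1
    | .inr (m, true) =>
      by_cases h : m = i
      · subst h
        simp [insA, hij]
      · by_cases h' : m = j
        · subst h'
          simp [insA, h]
        · simp only [insA, h, h', if_false]
          intro h2
          exact ht i j m hij (Prod.mk.inj (Sum.inr.inj h2)).1

end CG

/-! ## Gems: squares joined at their corners -/

/-- the corners of the squares `s : S` -/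
abbrev Fl (S : Type) : Type := S × Bool × Bool

/-- change the end of the edge -/
def f0 {S : Type} (x : Fl S) : Fl S := (x.1, !x.2.1, x.2.2)
/-- change the side of the edge -/
def f2 {S : Type} (x : Fl S) : Fl S := (x.1, x.2.1, !x.2.2)

/-- the colouring of the corners -/
def gcol {S : Type} (κ : S → Bool) (x : Fl S) : Bool := xor (κ x.1) (xor x.2.1 x.2.2)

/-- A map on a surface, given by its flags: the edges are the squares `s : S`, with flags
`(s, b, c)`; `b` is the end and `c` the side; `a1` changes the edge. -/
structure Gem (S : Type) where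
  a1 : Fl S → Fl S
  κ : S → Bool
  inv : ∀ x, a1 (a1 x) = x
  hcol : ∀ x, gcol κ (a1 x) = !gcol κ x
  ne0 : ∀ x, a1 x ≠ f0 x
  ne2 : ∀ x, a1 x ≠ f2 x

theorem f0_f0 {S : Type} (x : Fl S) : f0 (f0 x) = x := by
  obtain ⟨s, b, c⟩ := x; simp [f0]
theorem f2_f2 {S : Type} (x : Fl S) : f2 (f2 x) = x := by
  obtain ⟨s, b, c⟩ := x; simp [f2]
theorem f0_f2 {S : Type} (x : Fl S) : f0 (f2 x) = f2 (f0 x) := rfl

theorem gcol_f0 {S : Type} (κ : S → Bool) (x : Fl S) : gcol κ (f0 x) = !gcol κ x := by
  obtain ⟨s, b, c⟩ := x; cases b <;> cases c <;> cases h : κ s <;> simp [gcol, f0, h]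
theorem gcol_f2 {S : Type} (κ : S → Bool) (x : Fl S) : gcol κ (f2 x) = !gcol κ x := by
  obtain ⟨s, b, c⟩ := x; cases b <;> cases c <;> cases h : κ s <;> simp [gcol, f2, h]
theorem f0_ne_f2 {S : Type} (x : Fl S) : f0 x ≠ f2 x := by
  obtain ⟨s, b, c⟩ := x; cases b <;> simp [f0, f2]

namespace Gem

variable {S : Type}

/-- the coloured graph of a gem -/
def cg (G : Gem S) : CG (Fl S) where
  a i := match i with
    | 0 => f0
    | 1 => G.a1
    | 2 => f2
  col := gcol G.κ
  inv := by
    intro i x
    match i with
    | 0 => exact f0_f0 x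
    | 1 => exact G.inv x
    | 2 => exact f2_f2 x
  hcol := by
    intro i x
    match i with
    | 0 => exact gcol_f0 _ x
    | 1 => exact G.hcol x
    | 2 => exact gcol_f2 _ x
  ne := by
    intro i j x h
    match i, j with
    | 0, 0 => exact absurd rfl h
    | 0, 1 => exact (G.ne0 x).symm
    | 0, 2 => exact f0_ne_f2 x
    | 1, 0 => exact G.ne0 x
    | 1, 1 => exact absurd rfl h
    | 1, 2 => exact G.ne2 x
    | 2, 0 => exact (f0_ne_f2 x).symm
    | 2, 1 => exact (G.ne2 x).symm
    | 2, 2 => exact absurd rfl h

/-- the smoothing `A`: the squares `s` with `A s = true` are resolved by `f0`, the others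
by `f2` -/
def sig (A : S → Bool) (x : Fl S) : Fl S := if A x.1 then f0 x else f2 x

/-- one step along a loop of the smoothing `A` -/
def lrel (G : Gem S) (A : S → Bool) (x y : Fl S) : Prop := G.a1 x = y ∨ sig A x = y

/-- one step in the spanning subgraph `A` of the map -/
def krel (G : Gem S) (A : S → Bool) (x y : Fl S) : Prop :=
  G.a1 x = y ∨ f2 x = y ∨ (A x.1 = true ∧ f0 x = y)

/-- number of loops -/
noncomputable def nL (G : Gem S) (A : S → Bool) : ℕ := Nat.card (Quot (G.lrel A))
/-- number of components -/
noncomputable def nK (G : Gem S) (A : S → Bool) : ℕ := Nat.card (Quot (G.krel A))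
/-- number of edges -/
noncomputable def nE (A : S → Bool) : ℕ := {s | A s = true}.ncard

/-- number of vertices -/
noncomputable def nV (G : Gem S) : ℕ := G.nL (fun _ => false)

/-- connected, and Euler's formula -/
def Sph (G : Gem S) : Prop :=
  G.cg.graph.Connected ∧ G.nV + G.nL (fun _ => true) = Nat.card S + 2

/-- the proper `3`-colourings of the vertices of the map -/
def IsCol (G : Gem S) (c : Fl S → Fin 3) : Prop :=
  ∀ x, c (G.a1 x) = c x ∧ c (f2 x) = c x ∧ c (f0 x) ≠ c x

/-- their number, if the colours of the end points of one edge are given -/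
noncomputable def pcol (G : Gem S) (x₀ : Fl S) : ℕ :=
  {c : Fl S → Fin 3 | G.IsCol c ∧ c x₀ = 2 ∧ c (f0 x₀) = 0}.ncard

/-- the orbits of `a1` and `sig A`, as sets -/
def IsOrb (G : Gem S) (A : S → Bool) (T : Set (Fl S)) : Prop :=
  ∃ x, T = {y | Quot.mk (G.lrel A) y = Quot.mk (G.lrel A) x}

/-- pairs (smoothing, loop) such that the loop meets all squares -/
noncomputable def nFull (G : Gem S) : ℕ :=
  {p : (S → Bool) × Set (Fl S) | G.IsOrb p.1 p.2 ∧ ∀ s, ∃ x ∈ p.2, x.1 = s}.ncard

/-- pairs (smoothing with `A s = false`, loop) such that the loop does not meet the square `s` -/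
noncomputable def nMiss (G : Gem S) (s : S) : ℕ :=
  {p : (S → Bool) × Set (Fl S) | G.IsOrb p.1 p.2 ∧ p.1 s = false ∧ ∀ x ∈ p.2, x.1 ≠ s}.ncard

/-- smoothings with `A s = false` such that the ends of the edge `s` are in different
components -/
noncomputable def nSep (G : Gem S) (s : S) : ℕ :=
  {A : S → Bool | A s = false ∧ Quot.mk (G.krel A) (s, false, false) ≠
    Quot.mk (G.krel A) (s, true, false)}.ncard

end Gem

end Pool.Agent.HMC
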