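import Pool.Agent.Helper32_HCK.Defs

/-!
# Hamiltonian cycles modulo powers of two: definitions

* `IsPlanar`, `Polyhedral`, `CBP`: planar, polyhedral, cubic bipartite polyhedral graphs;
* `ham G`: the number of Hamiltonian cycles;
* `InModP k`, `ModComplete k`: the class `Mod_k P` and completeness for it, in terms of
  Mathlib's `Turing.TM2ComputableInPolyTime`;
* `notDiv k`: the decision problem: `k` does not divide the number of Hamiltonian cycles of a
  given cubic bipartite polyhedral graph.
-/

set_option autoImplicit false

namespace Pool.Agent.HMC

open Pool.Agent.Helper32_HCK (DecisionProblem languageProblem PolyReduces)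

/-- A connected graph with finitely many vertices is planar: it has a rotation system of genus
zero.  The rotation system is a permutation `σ` of the darts (oriented edges) which, for each
vertex `v`, permutes the darts leaving `v` cyclically; the faces are the cycles of `σ ∘ reversal`;
genus zero is Euler's formula `V + F = E + 2`. -/
def IsPlanar {V : Type} (G : SimpleGraph V) : Prop :=
  ∃ σ : Equiv.Perm G.Dart, (∀ d, (σ d).fst = d.fst) ∧
    (∀ d d' : G.Dart, d.fst = d'.fst → σ.SameCycle d d') ∧
    Nat.card V + Nat.card (Quotient (Equiv.Perm.SameCycle.setoid
      (σ * (SimpleGraph.Dart.symm_involutive (G := G)).toPerm))) = Nat.card G.edgeSet + 2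

/-- `3`-vertex-connected: at least four vertices, and connected after the removal of any set of at
most two vertices. -/
def IsThreeConnected {V : Type} (G : SimpleGraph V) : Prop :=
  4 ≤ Nat.card V ∧ ∀ S : Set V, S.ncard ≤ 2 → (G.induce Sᶜ).Connected

/-- Cubic bipartite polyhedral graphs (Barnette graphs). -/
def CBP {V : Type} (G : SimpleGraph V) : Prop :=
  (∀ v, (G.neighborSet v).ncard = 3) ∧ G.Colorable 2 ∧ G.Connected ∧ IsPlanar G ∧
    IsThreeConnected G

/-- The number of Hamiltonian cycles, as subgraphs: these are the connected spanning subgraphs in
which all vertices have degree two. -/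
noncomputable def ham {V : Type} (G : SimpleGraph V) : ℕ :=
  {H : SimpleGraph V | H ≤ G ∧ H.Connected ∧ ∀ v, (H.neighborSet v).ncard = 2}.ncard

open Classical in
/-- Encoding of a graph on `{0, …, n-1}` by its adjacency matrix: for each vertex `u` the marker
`none` followed by the bits `[u ~ 0], …, [u ~ n-1]`. -/
noncomputable def encG (x : Σ n : ℕ, SimpleGraph (Fin n)) : List (Option Bool) :=
  (List.finRange x.1).flatMap fun u =>
    none :: (List.finRange x.1).map fun v => some (decide (x.2.Adj u v))

theorem encG_injective : Function.Injective encG := by
  classical
  rintro ⟨n, G⟩ ⟨n', G'⟩ h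
  have hc : ∀ x : (Σ n : ℕ, SimpleGraph (Fin n)),
      (encG x).countP (fun a => a.isNone) = x.1 := by
    intro x
    unfold encG
    rw [List.countP_flatMap]
    have : ((fun u : Fin x.1 => List.countP (fun a : Option Bool => a.isNone)
        (none :: (List.finRange x.1).map fun v => some (decide (x.2.Adj u v))))) = fun _ => 1 := by
      funext u
      rw [List.countP_cons, List.countP_map]
      simp [Function.comp_def]
    simp [Function.comp_def, this]
  have h1 : n = n' := by
    have h1 := hc ⟨n, G⟩
    have h2 := hc ⟨n', G'⟩
    rw [h] at h1
    exact h1.symm.trans h2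
  subst h1
  congr 1
  ext u v
  have h2 := Pool.Agent.Helper32_HCK.flatMap_inj
    (fun u => (none : Option Bool) :: (List.finRange n).map fun v => some (decide (G.Adj u v)))
    (fun u => none :: (List.finRange n).map fun v => some (decide (G'.Adj u v)))
    (List.finRange n) (by intro a _; simp) h u (by simp)
  have h3 := (List.cons.inj h2).2
  have h4 := (List.map_inj_left.1 h3) v (List.mem_finRange v)
  simpa using h4

/-- The class `Mod_k P` (for decision problems): for some polynomial-time computable verifier `V`
and some polynomial `q`, `x` is a yes-instance iff the number of words `c` of length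
`q (length of the encoding of x)` over `{0,1}` (computation paths of a nondeterministic machine)
such that `V (x, c)` accepts is not divisible by `k`. -/
def InModP (k : ℕ) (P : DecisionProblem) : Prop :=
  ∃ (V : P.Inst × List Bool → Bool) (q : Polynomial ℕ),
    Nonempty (Turing.TM2ComputableInPolyTime P.encPair Computability.encodeBool V) ∧
    ∀ x, P.Yes x ↔
      ¬ k ∣ {c : List Bool | c.length = q.eval (P.enc x).length ∧ V (x, c) = true}.ncard

/-- `P` is complete for `Mod_k P` under polynomial-time many-one (Karp) reductions. -/
def ModComplete (k : ℕ) (P : DecisionProblem) : Prop :=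
  InModP k P ∧ ∀ L : Set (List Bool), InModP k (languageProblem L) →
    PolyReduces (languageProblem L) P

/-- The decision problem: given a cubic bipartite polyhedral graph `G` (by its adjacency matrix),
decide whether `k` does not divide the number of Hamiltonian cycles of `G`. -/
noncomputable def notDiv (k : ℕ) : DecisionProblem where
  Inst := {x : Σ n : ℕ, SimpleGraph (Fin n) // CBP x.2}
  Alph := Option Bool
  alphFintype := inferInstance
  enc := fun x => encG x.1
  enc_injective := fun _ _ h => Subtype.ext (encG_injective h)
  Yes := fun x => ¬ k ∣ ham x.1.2

end Pool.Agent.HMC
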