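import Pool.Agent.Helper79_HMC.Stmts

/-!
# Squad HMC: assembly of the theorem
-/

set_option autoImplicit false

namespace Pool.Agent.HMC

open Pool.Agent.Common_CookLevin
open Pool.Agent.Helper32_HCK (DecisionProblem languageProblem PolyReduces)

theorem cbp_of {X : Type} [Finite X] (hCub : CubStmt) (hCon : ConStmt) (hPla : PlaStmt)
    (C : CG X) (h1 : C.graph.Connected) (h2 : C.Euler) (h3 : C.Tight) : CBP C.graph :=
  ⟨(hCub X C).1, (hCub X C).2, h1, hPla X C h1 h2, hCon X C h1 h3⟩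

/-- the graph of a formula -/
theorem core (hCub : CubStmt) (hCon : ConStmt) (hPla : PlaStmt) (hIde : IdeStmt)
    (hLad : LadStmt) (hPth : PthStmt) (hPar : ParStmt) (hWor : WorStmt) (hNum : NumStmt)
    (k V : ℕ) (Φ : CNF) (hb : Bdd V Φ) :
    ∃ G : SimpleGraph (Fin (nVert (wordOf V Φ) k)), CBP G ∧
      (∀ u v : Fin _, G.Adj u v ↔ adjN (wordOf V Φ) k u v) ∧
      (2 ^ (k + 2) ∣ ham G ↔ 2 ∣ nSat V Φ) := by
  obtain ⟨hw, hev, h4, h0, h1⟩ := hWor V Φ hb
  obtain ⟨G, hG, hS, hT, hE⟩ := hLad _ _ hw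
  obtain ⟨C, hC, hcon, hEu, hTi, hham⟩ := hNum _ G k hG (by omega) h0 h1 hS.1 hE hT
  refine ⟨C.graph, cbp_of hCub hCon hPla C hcon hEu hTi, hC, ?_⟩
  have hpos : 0 < (wordOf V Φ).length := by omega
  have hp := hPth _ _ hw h0 G hG ⟨0, hpos⟩ rfl
  have hq := hPar V Φ hb
  have hi := hIde (Fin (wordOf V Φ).length) G (⟨0, hpos⟩, false, false) hS
    (by simpa using hev) (by simpa using h4)
  rw [hham, pow_add, Nat.mul_dvd_mul_iff_left (by positivity)]
  change 4 ∣ ham G.cg.graph ↔ _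
  rw [hi, hp]
  omega

theorem encA_eq {n N : ℕ} (hn : n = N) (G : SimpleGraph (Fin n)) (adj : ℕ → ℕ → Prop)
    (h : ∀ u v : Fin n, G.Adj u v ↔ adj u v) :
    encG ⟨n, G⟩ = encA N adj := by
  classical
  subst hn
  unfold encG encA
  simp only
  have e1 : ∀ (f : ℕ → List (Option Bool)), (List.range n).flatMap f =
      (List.finRange n).flatMap (fun u : Fin n => f u.val) := by
    intro f
    rw [← List.map_coe_finRange_eq_range, List.flatMap_map]
  have e2 : ∀ (f : ℕ → Option Bool), (List.range n).map f =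
      (List.finRange n).map (fun u : Fin n => f u.val) := by
    intro f
    rw [← List.map_coe_finRange_eq_range, List.map_map]
    rfl
  rw [e1]
  congr 1
  funext u
  congr 1
  rw [e2]
  refine List.map_congr_left fun v _ => ?_
  congr 1
  exact decide_eq_decide.mpr (h u v)

theorem cbp_card {n : ℕ} {G : SimpleGraph (Fin n)} (h : CBP G) : 4 ≤ n := by
  have := h.2.2.2.2.1
  simpa using this

/-- membership -/
theorem mem (hUcn : UcnStmt) (hUpo : UpoStmt) (k : ℕ) : InModP k (notDiv k) := by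
  obtain ⟨V, q, ⟨hV⟩, hc⟩ := hUpo
  refine ⟨fun p => V (p.1.1, p.2), q, ⟨⟨hV.toTM2ComputableAux, hV.time, fun x => ?_⟩⟩, ?_⟩
  · exact hV.outputsFun (x.1.1, x.2)
  · intro x
    have h3 : 3 ≤ x.1.1 := by
      have := cbp_card x.2
      omega
    have h1 := hc x.1 h3
    have h2 := hUcn x.1.1 x.1.2 h3
    change ¬ k ∣ ham x.1.2 ↔ ¬ k ∣ {c : List Bool | c.length = q.eval (encG x.1).length ∧
      V (x.1, c) = true}.ncard
    rw [h1, h2]

theorem fin (hCub : CubStmt) (hCon : ConStmt) (hPla : PlaStmt) (hIde : IdeStmt)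
    (hLad : LadStmt) (hPth : PthStmt) (hPar : ParStmt) (hWor : WorStmt) (hNum : NumStmt)
    (hTab : TabStmt) (hDcn : DcnStmt) (hDpo : DpoStmt) (hLuc : LucStmt) (hFpo : FpoStmt)
    (hGpo : GpoStmt) (hUcn : UcnStmt) (hUpo : UpoStmt) : FinStmt := by
  intro n hn
  refine ⟨mem hUcn hUpo _, ?_⟩
  intro L hL
  obtain ⟨V, q, hV, hYes⟩ := hL
  obtain ⟨g, nv, Φ, hg, hgw⟩ := hTab V q L hV
  have hq1 : 1 ≤ 2 ^ n - 1 := by
    have : 2 ^ 1 ≤ 2 ^ n := Nat.pow_le_pow_right (by norm_num) (by omega)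
    omega
  set Q := 2 ^ n - 1 with hQ
  obtain ⟨d, hd, hdw⟩ := hDpo Q hq1
  obtain ⟨f, hf, hfw⟩ := hFpo
  obtain ⟨r, hr, hrw⟩ := hGpo (n - 2)
  -- the graph
  have hbd : ∀ w, Bdd (dupV Q (nv w)) (dup Q (nv w) (Φ w)) := fun w =>
    (hDcn Q (nv w) (Φ w) hq1 (hgw w).2.1).1
  have hcore := fun w => core hCub hCon hPla hIde hLad hPth hPar hWor hNum (n - 2)
    (dupV Q (nv w)) (dup Q (nv w) (Φ w)) (hbd w)
  choose G hG using hcore
  let F : List Bool → (notDiv (2 ^ n)).Inst := fun w => ⟨⟨_, G w⟩, (hG w).1⟩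
  refine ⟨F, ?_, ?_⟩
  · have hp : PolyFn (fun w => r (f (d (g w)))) := ((hg.comp hd).comp hf).comp hr
    refine hp.computable (languageProblem L).enc (notDiv (2 ^ n)).enc F ?_
    intro w
    change encG ⟨_, G w⟩ = r (f (d (g w)))
    rw [(hgw w).1, hdw _ _ (hgw w).2.1, hfw, hrw]
    exact encA_eq rfl (G w) _ (hG w).2.1
  · intro w
    change List Bool at w
    rw [hYes w]
    have h1 := (hG w).2.2
    have h2 : n - 2 + 2 = n := by omega
    rw [h2] at h1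
    change _ ↔ ¬ 2 ^ n ∣ ham (G w)
    rw [h1, (hDcn Q (nv w) (Φ w) hq1 (hgw w).2.1).2]
    have h3 := hLuc n (nSat (nv w) (Φ w))
    rw [← hQ] at h3
    have h4 := (hgw w).2.2
    have h5 : ¬ 2 ^ n ∣ nSat (nv w) (Φ w) ↔
        ¬ 2 ∣ ∑ s ∈ Finset.Icc 1 Q, (nSat (nv w) (Φ w)).choose s := by
      refine h3.symm.trans ?_
      omega
    have h6 : ∀ N : ℕ, nSat (nv w) (Φ w) = N → (¬ 2 ^ n ∣ N ↔
        ¬ 2 ∣ ∑ s ∈ Finset.Icc 1 Q, (nSat (nv w) (Φ w)).choose s) := by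
      intro N hN
      rw [← hN]
      exact h5
    exact h6 _ h4

end Pool.Agent.HMC
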