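import Pool.Agent.Helper79_HMC.Words

/-!
# Squad HMC: statements of the modules.  Plan with proofs: /team-store/PLAN_HMC.md
-/

set_option autoImplicit false

namespace Pool.Agent.HMC

open Pool.Agent.Common_CookLevin (CNF CNFLetter encodeCNF PolyFn)
open Pool.Agent.Helper32_HCK (DecisionProblem languageProblem PolyReduces)

/-! ## Part A: coloured cubic graphs -/

/-- CUB: cubic and bipartite -/
def CubStmt : Prop := ∀ (X : Type) [Finite X] (C : CG X),
  (∀ v, (C.graph.neighborSet v).ncard = 3) ∧ C.graph.Colorable 2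

/-- CUT: two-edge cuts: a nonempty proper subset has at least three edges in its boundary -/
def CutStmt : Prop := ∀ (X : Type) [Finite X] (C : CG X), C.graph.Connected → C.Tight →
  ∀ T : Set X, T.Nonempty → T ≠ Set.univ →
    3 ≤ {p : X × Fin 3 | p.1 ∈ T ∧ C.a p.2 p.1 ∉ T}.ncard

/-- CON: three-connected -/
def ConStmt : Prop := ∀ (X : Type) [Finite X] (C : CG X), C.graph.Connected → C.Tight →
  IsThreeConnected C.graph

/-- PLA: planar -/
def PlaStmt : Prop := ∀ (X : Type) [Finite X] (C : CG X), C.graph.Connected → C.Euler →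
  IsPlanar C.graph

/-! ## Part B: the identity -/

/-- CYC: number of cycles of a permutation times a transposition -/
def CycStmt : Prop := ∀ (P : Type) [Finite P] [DecidableEq P] (ρ : Equiv.Perm P) (x y : P),
  x ≠ y →
    (ρ.SameCycle x y → Nat.card (Quotient (Equiv.Perm.SameCycle.setoid (ρ * Equiv.swap x y))) =
      Nat.card (Quotient (Equiv.Perm.SameCycle.setoid ρ)) + 1) ∧
    (¬ ρ.SameCycle x y →
      Nat.card (Quotient (Equiv.Perm.SameCycle.setoid (ρ * Equiv.swap x y))) + 1 =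
      Nat.card (Quotient (Equiv.Perm.SameCycle.setoid ρ)))

/-- LST: change of the number of loops when one square is resolved differently -/
def LstStmt : Prop := ∀ (S : Type) [Finite S] [DecidableEq S] (G : Gem S) (A : S → Bool) (s : S),
  A s = false → ∀ x : Fl S, x.1 = s →
    (Quot.mk (G.lrel A) x = Quot.mk (G.lrel A) (f0 x) →
      G.nL (Function.update A s true) = G.nL A + 1) ∧
    (Quot.mk (G.lrel A) x ≠ Quot.mk (G.lrel A) (f0 x) →
      G.nL (Function.update A s true) + 1 = G.nL A)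

/-- KST: change of the number of components when one edge is added -/
def KstStmt : Prop := ∀ (S : Type) [Finite S] [DecidableEq S] (G : Gem S) (A : S → Bool) (s : S),
  A s = false → ∀ x : Fl S, x.1 = s →
    (Quot.mk (G.krel A) x = Quot.mk (G.krel A) (f0 x) →
      G.nK (Function.update A s true) = G.nK A) ∧
    (Quot.mk (G.krel A) x ≠ Quot.mk (G.krel A) (f0 x) →
      G.nK (Function.update A s true) + 1 = G.nK A)

/-- EUL: Euler's inequality and, for spheres, Euler's formula for all smoothings -/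
def EulStmt : Prop := ∀ (S : Type) [Finite S] (G : Gem S), G.cg.graph.Connected →
  G.nV + G.nL (fun _ => true) ≤ Nat.card S + 2 ∧
  (G.Sph → (∀ A, G.nL A + G.nV = 2 * G.nK A + Gem.nE A) ∧
    ∀ (A : S → Bool) (s : S), A s = false → ∀ x : Fl S, x.1 = s →
      Quot.mk (G.krel A) x = Quot.mk (G.krel A) (f0 x) →
      Quot.mk (G.lrel A) x = Quot.mk (G.lrel A) (f0 x))

/-- SIX: `P(3) = 6 p` -/
def SixStmt : Prop := ∀ (S : Type) [Finite S] (G : Gem S) (x₀ : Fl S),
  {c : Fl S → Fin 3 | G.IsCol c}.ncard = 6 * G.pcol x₀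

/-- INE: `P(3) = ∑ (-1) ^ |A| 3 ^ k(A)` -/
def IneStmt : Prop := ∀ (S : Type) [Fintype S] [DecidableEq S] (G : Gem S),
  ({c : Fl S → Fin 3 | G.IsCol c}.ncard : ℤ) =
    ∑ A : S → Bool, (-1) ^ Gem.nE A * 3 ^ G.nK A

/-- CH1: separating smoothings -/
def Ch1Stmt : Prop := ∀ (S : Type) [Finite S] (G : Gem S) (x₀ : Fl S) (s : S),
  G.nSep s % 2 = G.pcol x₀ % 2

/-- CH2: sum of the numbers of components -/
def Ch2Stmt : Prop := ∀ (S : Type) [Fintype S] [DecidableEq S] (G : Gem S) (x₀ : Fl S),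
  2 ≤ Fintype.card S → (∑ A : S → Bool, G.nK A) % 2 = G.pcol x₀ % 2

/-- CNT: double counting modulo four -/
def CntStmt : Prop := ∀ (S : Type) [Fintype S] [DecidableEq S] (G : Gem S),
  (∑ A : S → Bool, G.nL A) % 4 = (G.nFull + 2 * ∑ s, G.nMiss s) % 4

/-- UNT: loops which do not meet a square -/
def UntStmt : Prop := ∀ (S : Type) [Fintype S] [DecidableEq S] (G : Gem S), G.Sph → ∀ s : S,
  G.nMiss s + 2 ^ (Fintype.card S - 1) + G.nSep s =
    ∑ A ∈ (Finset.univ : Finset (S → Bool)).filter (fun A => A s = false), G.nL A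

/-- HMA: from Hamiltonian cycles to pairs (smoothing, loop) -/
def HmaStmt : Prop := ∀ (S : Type) [Finite S] (G : Gem S), 2 ≤ Nat.card S →
  ∀ H : SimpleGraph (Fl S), H ≤ G.cg.graph → H.Connected →
    (∀ v, (H.neighborSet v).ncard = 2) →
    ∃ A : S → Bool, G.IsOrb A {x | H.Adj x (G.a1 x)} ∧
      (∀ s, ∃ x, H.Adj x (G.a1 x) ∧ x.1 = s) ∧
      ∀ x, (H.Adj x (Gem.sig A x) ↔
          ¬ H.Adj x (G.a1 x) ∨ ∀ y : Fl S, y.1 = x.1 → H.Adj y (G.a1 y)) ∧
        (H.Adj x (Gem.sig (fun s => !A s) x) ↔ ∃ y : Fl S, y.1 = x.1 ∧ ¬ H.Adj y (G.a1 y))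

/-- HMB: from pairs to Hamiltonian cycles -/
def HmbStmt : Prop := ∀ (S : Type) [Finite S] (G : Gem S) (A : S → Bool) (T : Set (Fl S)),
  G.IsOrb A T → (∀ s, ∃ x ∈ T, x.1 = s) →
    ∃ H : SimpleGraph (Fl S), H ≤ G.cg.graph ∧ H.Connected ∧
      (∀ v, (H.neighborSet v).ncard = 2) ∧ (∀ x, H.Adj x (G.a1 x) ↔ x ∈ T) ∧
      ∀ x, (H.Adj x (Gem.sig A x) ↔ x ∉ T ∨ ∀ y : Fl S, y.1 = x.1 → y ∈ T) ∧
        (H.Adj x (Gem.sig (fun s => !A s) x) ↔ ∃ y : Fl S, y.1 = x.1 ∧ y ∉ T)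

/-- HAM: Hamiltonian cycles are loops which meet all squares -/
def HamStmt : Prop := ∀ (S : Type) [Finite S] (G : Gem S), 2 ≤ Nat.card S →
  G.nFull = ham G.cg.graph

/-- IDE: the identity -/
def IdeStmt : Prop := ∀ (S : Type) [Finite S] (G : Gem S) (x₀ : Fl S), G.Sph →
  Even (Nat.card S) → 4 ≤ Nat.card S → (4 ∣ ham G.cg.graph ↔ 2 ∣ G.pcol x₀)

/-! ## Part C: ladders -/

/-- RAI: the corners are matched along the rails -/
def RaiStmt : Prop := ∀ (n : ℕ) (τ : List ℕ), WFL n τ →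
  (∀ x, ∃! y, Rail τ x y) ∧ (∀ x y, Rail τ x y → Rail τ y x) ∧
  ∀ x y, Rail τ x y → gcol (par τ) y = !gcol (par τ) x

/-- LAB: invariance of the labels -/
def LabStmt : Prop := ∀ (n : ℕ) (τ : List ℕ), WFL n τ →
  (∀ x y, Rail τ x y → vl τ y = vl τ x ∧ fl τ n y = fl τ n x) ∧
  ∀ x, vl τ (f2 x) = vl τ x ∧ fl τ n (f0 x) = fl τ n x

/-- LSE: separation by the labels -/
def LseStmt : Prop := ∀ (n : ℕ) (τ : List ℕ), WFL n τ →
  (∀ x, vl τ (f0 x) ≠ vl τ x ∧ fl τ n (f2 x) ≠ fl τ n x) ∧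
  ∀ x y, vl τ y = vl τ x → fl τ n y = fl τ n x → y = x ∨ Rail τ x y

/-- LCT: number of the labels -/
def LctStmt : Prop := ∀ (n : ℕ) (τ : List ℕ), WFL n τ →
  τ.length + 2 ≤ (Set.range (vl τ)).ncard + (Set.range (fl τ n)).ncard

/-- LCN: connectivity -/
def LcnStmt : Prop := ∀ (n : ℕ) (τ : List ℕ), WFL n τ → ∀ x y : Fl (Fin τ.length),
  Relation.ReflTransGen (fun x y => y = f0 x ∨ y = f2 x ∨ Rail τ x y) x y

/-- GEU: the coloured graph of a sphere -/
def GeuStmt : Prop := ∀ (S : Type) [Finite S] (G : Gem S), G.Sph → G.cg.Euler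

/-- LAD: the gem of a ladder -/
def LadStmt : Prop := ∀ (n : ℕ) (τ : List ℕ), WFL n τ → ∃ G : Gem (Fin τ.length),
  (∀ x y, G.a1 x = y ↔ Rail τ x y) ∧ G.Sph ∧ G.cg.Tight ∧ G.cg.Euler

/-- PTH: colourings of a ladder are sequences of transitions -/
def PthStmt : Prop := ∀ (n : ℕ) (τ : List ℕ), WFL n τ → τ[0]? = some 1 →
  ∀ (G : Gem (Fin τ.length)), (∀ x y, G.a1 x = y ↔ Rail τ x y) →
  ∀ z : Fin τ.length, (z : ℕ) = 0 →
    G.pcol (z, false, false) = (((allF n).filter startF).flatMap (run τ)).length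

/-! ## Part E: gates -/

/-- GAT: the gates -/
def GatStmt : Prop :=
  (∀ x y : Bool, PEq (run SW [2, cb x, 2, cb y, 2]) [[2, cb y, 2, cb x, 2]]) ∧
  (∀ z x y : Bool, PEq (run CL [cb z, 2, cb x, 2, cb y])
    (if x = y ∧ x ≠ z then [] else [[cb z, 2, cb x, 2, cb y]])) ∧
  (∀ x : Bool, run NT [2, cb x] = [[2, cb (!x)]]) ∧
  (∀ x : Bool, run AD [2, cb x] = [[2, cb x]] ∧ run AD [cb x, 2] = [[cb x, 2]] ∧
    run [0, 1, 0, 1] [2, cb x] = [[2, cb x]]) ∧
  (∀ a x b : Fin 3, a ≠ x → x ≠ b → run EQ [a, x, b] = if a = b then [[a, x, b]] else [])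

/-- SHF: a word acts on a window -/
def ShfStmt : Prop := ∀ (l a r : List (Fin 3)) (u : List ℕ), (∀ j ∈ u, j + 1 < 2 * a.length) →
  run (sh (2 * l.length) u) (l ++ a ++ r) = (run u a).map (fun b => l ++ b ++ r)

/-- PEQ: calculus -/
def PeqStmt : Prop :=
  (∀ u v f, run (u ++ v) f = (run u f).flatMap (run v)) ∧
  (∀ A B A' B', PEq A B → PEq A' B' → PEq (A ++ A') (B ++ B')) ∧
  (∀ (A B : List (List (Fin 3))) (g : List (Fin 3) → List (List (Fin 3))), PEq A B →
    PEq (A.flatMap g) (B.flatMap g)) ∧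
  (∀ (A : List (List (Fin 3))) (g g' : List (Fin 3) → List (List (Fin 3))),
    (∀ f ∈ A, PEq (g f) (g' f)) → PEq (A.flatMap g) (A.flatMap g')) ∧
  (∀ A B, PEq A B → A.length % 2 = B.length % 2)

/-- a list of bits with the entries `i` and `i + 1` exchanged -/
def swB (i : ℕ) (b : List Bool) : List Bool :=
  (b.set i (b.getD (i + 1) false)).set (i + 1) (b.getD i false)

/-- KET: the gates on kets -/
def KetStmt : Prop :=
  (∀ (b : List Bool) (i : ℕ), i + 1 < b.length → PEq (run (sw i) (ket b)) [ket (swB i b)]) ∧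
  (∀ (b : List Bool) (i : ℕ), i < b.length →
    run (sh (4 * i) NT) (ket b) = [ket (b.set i (!b.getD i false))]) ∧
  (∀ (b : List Bool), 3 ≤ b.length → PEq (run (sh 2 CL) (ket b))
    (if b.getD 1 false = b.getD 2 false ∧ b.getD 1 false ≠ b.getD 0 false then [] else [ket b]))

/-- UPD: sequences of exchanges -/
def UpdStmt : Prop := ∀ (l r : List Bool) (x : Bool) (m : List Bool), l ≠ [] →
  PEq (run (up l.length (l.length + m.length - 1)) (ket (l ++ m ++ [x] ++ r)))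
    [ket (l ++ [x] ++ m ++ r)] ∧
  PEq (run (down l.length (l.length + m.length - 1)) (ket (l ++ [x] ++ m ++ r)))
    [ket (l ++ m ++ [x] ++ r)]

/-- LIT: the word of a literal; `b` is `false`, the clause bits, the variable bits -/
def LitStmt : Prop := ∀ (m j : ℕ) (l : ℕ × Bool) (b : List Bool), j < m → 1 + m + l.1 < b.length →
  b[0]? = some false → PEq (run (lit m j l) (ket b))
    (if b[1 + j]? = some true ∧ b[1 + m + l.1]? = some l.2 then [] else [ket b])

/-- the constraints -/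
def Good (Φ : CNF) (b : List Bool) : Prop :=
  ∀ (j : ℕ) (C : List (ℕ × Bool)), Φ[j]? = some C → ∀ l ∈ C,
    ¬ (b[1 + j]? = some true ∧ b[1 + Φ.length + l.1]? = some l.2)

open Classical in
/-- BOD: the words of all literals -/
def BodStmt : Prop := ∀ (V : ℕ) (Φ : CNF) (b : List Bool), Bdd V Φ → b.length = nbit V Φ →
  b[0]? = some false → PEq (run (body Φ) (ket b)) (if Good Φ b then [ket b] else [])

/-- INI: the beginning -/
def IniStmt : Prop := ∀ K : ℕ, 1 ≤ K →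
  PEq (((allF (2 * K + 1)).filter startF).flatMap (run ([1, 1] ++ col K ++ eqs K ++ adv K)))
    (((allW [false, true] K).filter (fun b => b[0]? == some false)).map ket)

/-- COL: the rungs of the last column -/
def ColStmt : Prop := ∀ (b : List Bool), run (col b.length) (ket b) = [ket b]

/-- CPI: parity of the number of satisfying assignments -/
def CpiStmt : Prop := ∀ (V : ℕ) (Φ : CNF), Bdd V Φ →
  {b : List Bool | b.length = nbit V Φ ∧ b[0]? = some false ∧ Good Φ b}.ncard % 2 =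
    nSat V Φ % 2

/-- PAR: the parity of the number of colourings -/
def ParStmt : Prop := ∀ (V : ℕ) (Φ : CNF), Bdd V Φ →
  (((allF (2 * nbit V Φ + 1)).filter startF).flatMap (run (wordOf V Φ))).length % 2 =
    nSat V Φ % 2

/-- WOR: the word of a formula is the word of a ladder -/
def WorStmt : Prop := ∀ (V : ℕ) (Φ : CNF), Bdd V Φ →
  WFL (2 * nbit V Φ + 1) (wordOf V Φ) ∧ Even (wordOf V Φ).length ∧ 4 ≤ (wordOf V Φ).length ∧
    (wordOf V Φ)[0]? = some 1 ∧ (wordOf V Φ)[1]? = some 1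

/-! ## Part H: hexagons -/

/-- THA: Hamiltonian cycles and insertion of a hexagon -/
def ThaStmt : Prop := ∀ (X : Type) [Finite X] [DecidableEq X] (C : CG X) (x₀ : X),
  C.graph.Connected → ham (C.ins x₀).graph = 2 * ham C.graph

/-- TCO: connectivity -/
def TcoStmt : Prop := ∀ (X : Type) [Finite X] [DecidableEq X] (C : CG X) (x₀ : X),
  C.graph.Connected → (C.ins x₀).graph.Connected

/-- TEU: Euler's formula -/
def TeuStmt : Prop := ∀ (X : Type) [Finite X] [DecidableEq X] (C : CG X) (x₀ : X),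
  C.Euler → (C.ins x₀).Euler

/-- TTI: tightness -/
def TtiStmt : Prop := ∀ (X : Type) [Finite X] [DecidableEq X] (C : CG X) (x₀ : X),
  C.Tight → (C.ins x₀).Tight

/-- ISO: transport along a bijection -/
def IsoStmt : Prop := ∀ (X Y : Type) [Finite X] (C : CG X) (e : X ≃ Y),
  (C.graph.Connected → (C.map e).graph.Connected) ∧ (C.Euler → (C.map e).Euler) ∧
  (C.Tight → (C.map e).Tight) ∧ ham (C.map e).graph = ham C.graph

/-- NUM: the numbered graph -/
def NumStmt : Prop := ∀ (τ : List ℕ) (G : Gem (Fin τ.length)) (k : ℕ),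
  (∀ x y, G.a1 x = y ↔ Rail τ x y) → 2 ≤ τ.length → τ[0]? = some 1 → τ[1]? = some 1 →
  G.cg.graph.Connected → G.cg.Euler → G.cg.Tight →
  ∃ C : CG (Fin (nVert τ k)), (∀ u v, C.graph.Adj u v ↔ adjN τ k u v) ∧
    C.graph.Connected ∧ C.Euler ∧ C.Tight ∧ ham C.graph = 2 ^ k * ham G.cg.graph

/-! ## Part T: computations as formulas -/

/-- TAB: computations as formulas, with the exact number of satisfying assignments -/
def TabStmt : Prop := ∀ (V : List Bool × List Bool → Bool) (q : Polynomial ℕ)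
  (L : Set (List Bool)),
  Nonempty (Turing.TM2ComputableInPolyTime (languageProblem L).encPair
    Computability.encodeBool V) →
  ∃ (g : List Bool → List CNFLetter) (nv : List Bool → ℕ) (Φ : List Bool → CNF), PolyFn g ∧
    ∀ w, g w = encI (nv w) (Φ w) ∧ Bdd (nv w) (Φ w) ∧
      nSat (nv w) (Φ w) = {c : List Bool | c.length = q.eval w.length ∧ V (w, c) = true}.ncard

/-- DCN: the satisfying assignments of `dup` -/
def DcnStmt : Prop := ∀ (q V : ℕ) (Φ : CNF), 1 ≤ q → Bdd V Φ → Bdd (dupV q V) (dup q V Φ) ∧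
  nSat (dupV q V) (dup q V Φ) = ∑ s ∈ Finset.Icc 1 q, (nSat V Φ).choose s

/-- DPO: `dup` is computable in polynomial time -/
def DpoStmt : Prop := ∀ q : ℕ, 1 ≤ q → ∃ g : List CNFLetter → List CNFLetter, PolyFn g ∧
  ∀ (V : ℕ) (Φ : CNF), Bdd V Φ → g (encI V Φ) = encI (dupV q V) (dup q V Φ)

/-- LUC: Lucas -/
def LucStmt : Prop := ∀ (n N : ℕ), (∑ s ∈ Finset.Icc 1 (2 ^ n - 1), N.choose s) % 2 = 1 ↔
  ¬ 2 ^ n ∣ N

/-! ## Part P: polynomial time -/

/-- FPO: the word of a formula -/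
def FpoStmt : Prop := ∃ g : List CNFLetter → List Bool, PolyFn g ∧
  ∀ (V : ℕ) (Φ : CNF), g (encI V Φ) = encT (wordOf V Φ)

/-- GPO: the adjacency matrix -/
def GpoStmt : Prop := ∀ k : ℕ, ∃ g : List Bool → List (Option Bool), PolyFn g ∧
  ∀ τ : List ℕ, g (encT τ) = encA (nVert τ k) (adjN τ k)

/-! ## Part U: membership in `Mod_k P` -/

/-- the cyclic sequences `0 = v₀, v₁, …, v_{n-1}` with `v₁ < v_{n-1}` and `v_i ~ v_{i+1}` -/
def IsSeq {n : ℕ} (G : SimpleGraph (Fin n)) (v : Fin n → Fin n) : Prop :=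
  Function.Injective v ∧ (∀ i : Fin n, (i : ℕ) = 0 → (v i : ℕ) = 0) ∧
  (∀ i j : Fin n, (i : ℕ) + 1 = j → G.Adj (v i) (v j)) ∧
  (∀ i j : Fin n, (i : ℕ) = 0 → (j : ℕ) + 1 = n → G.Adj (v i) (v j)) ∧
  ∀ i j : Fin n, (i : ℕ) = 1 → (j : ℕ) + 1 = n → (v i : ℕ) < v j

/-- UCN: number of the Hamiltonian cycles -/
def UcnStmt : Prop := ∀ (n : ℕ) (G : SimpleGraph (Fin n)), 3 ≤ n →
  ham G = {v : Fin n → Fin n | IsSeq G v}.ncard

/-- UPO: a verifier; the certificate is the matrix of the permutation `v`, and zeros -/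
def UpoStmt : Prop := ∃ (V : (Σ n : ℕ, SimpleGraph (Fin n)) × List Bool → Bool)
  (q : Polynomial ℕ),
  Nonempty (Turing.TM2ComputableInPolyTime
    (fun x : (Σ n : ℕ, SimpleGraph (Fin n)) × List Bool =>
      (encG x.1).map Sum.inl ++ x.2.map Sum.inr) Computability.encodeBool V) ∧
  ∀ x : (Σ n : ℕ, SimpleGraph (Fin n)), 3 ≤ x.1 →
    {c : List Bool | c.length = q.eval (encG x).length ∧ V (x, c) = true}.ncard =
      {v : Fin x.1 → Fin x.1 | IsSeq x.2 v}.ncard

/-- FIN: the theorem -/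
def FinStmt : Prop := ∀ n : ℕ, 2 ≤ n → ModComplete (2 ^ n) (notDiv (2 ^ n))

end Pool.Agent.HMC
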