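import Pool.Agent.Helper79_HMC.Base
import Pool.Agent.Common_CookLevin.Sat

/-!
# Squad HMC: ladders, words, gates, formulas
-/

set_option autoImplicit false

namespace Pool.Agent.HMC

open Pool.Agent.Common_CookLevin (CNF CNFLetter encodeCNF PolyFn)

/-! ## Ladders

A word `τ` over `ℕ` describes a plane graph made of horizontal strands `0, 1, 2, …`: the letter
`2 i` (called `P i`) continues the strand `i` by a new edge, the letter `2 i + 1` (called `E i`)
joins the strands `i` and `i + 1` by a vertical edge (rung).  The strand `i` has two sides, the rails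
`2 i` (upper side) and `2 i + 1` (lower side).  The letter `j` is a square between the rails `j` and
`j + 1`. -/

section Ladder

variable (τ : List ℕ)

/-- the letter is a rung -/
def par (t : Fin τ.length) : Bool := decide (τ[t] % 2 = 1)

/-- right (`true`) or left (`false`) corner -/
def side (x : Fl (Fin τ.length)) : Bool := if par τ x.1 then x.2.2 else x.2.1

/-- lower (`true`) or upper (`false`) corner -/
def lev (x : Fl (Fin τ.length)) : Bool := if par τ x.1 then x.2.1 else x.2.2

/-- the rail of a corner -/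
def rail (x : Fl (Fin τ.length)) : ℕ := τ[x.1] + (if lev τ x then 1 else 0)

/-- the letter number `t` touches the rail `ρ` -/
def Touch (ρ : ℕ) (t : Fin τ.length) : Prop := τ[t] = ρ ∨ τ[t] + 1 = ρ

/-- the other side of the same strand -/
def partner (ρ : ℕ) : ℕ := if ρ % 2 = 0 then ρ + 1 else ρ - 1

/-- the corners are consecutive on a rail, or both are extreme on two partner rails -/
def Rail (x y : Fl (Fin τ.length)) : Prop :=
  (rail τ x = rail τ y ∧ side τ x = true ∧ side τ y = false ∧ x.1 < y.1 ∧
    ∀ s, x.1 < s → s < y.1 → ¬ Touch τ (rail τ x) s) ∨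
  (rail τ x = rail τ y ∧ side τ x = false ∧ side τ y = true ∧ y.1 < x.1 ∧
    ∀ s, y.1 < s → s < x.1 → ¬ Touch τ (rail τ x) s) ∨
  (rail τ y = partner (rail τ x) ∧ side τ x = true ∧ side τ y = true ∧
    (∀ s, x.1 < s → ¬ Touch τ (rail τ x) s) ∧ ∀ s, y.1 < s → ¬ Touch τ (rail τ y) s) ∨
  (rail τ y = partner (rail τ x) ∧ side τ x = false ∧ side τ y = false ∧
    (∀ s, s < x.1 → ¬ Touch τ (rail τ x) s) ∧ ∀ s, s < y.1 → ¬ Touch τ (rail τ y) s)

/-- the position of a corner, as a number of letters -/
def pos (x : Fl (Fin τ.length)) : ℕ := x.1 + (if side τ x then 1 else 0)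

/-- the vertex of a corner: the strand, and the number of letters `P` of this strand before -/
def vl (x : Fl (Fin τ.length)) : ℕ × ℕ :=
  (rail τ x / 2, (τ.take (pos τ x)).count (2 * (rail τ x / 2)))

/-- the number of rungs before the corner in the strip between two strands -/
def fcount (x : Fl (Fin τ.length)) : ℕ := (τ.take (pos τ x)).count (2 * ((rail τ x + 1) / 2) - 1)

/-- the face of a corner: the strip `σ` (between the strands `σ - 1` and `σ`), and the number of
rungs before; `none` is the outer face (`n` is the number of strands) -/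
def fl (n : ℕ) (x : Fl (Fin τ.length)) : Option (ℕ × ℕ) :=
  if (rail τ x + 1) / 2 = 0 ∨ (rail τ x + 1) / 2 = n ∨ fcount τ x = 0 ∨
    fcount τ x = τ.count (2 * ((rail τ x + 1) / 2) - 1) then none
  else some ((rail τ x + 1) / 2, fcount τ x)

/-- conditions on the word of a ladder with `n` strands -/
structure WFL (n : ℕ) (τ : List ℕ) : Prop where
  two_le : 2 ≤ n
  lt : ∀ j ∈ τ, j < 2 * n - 1
  hP : ∀ i < n, 2 * i ∈ τ
  first : ∀ i, i + 1 < n → ∀ (t : ℕ) (h : t < τ.length), (τ[t] = 2 * i ∨ τ[t] = 2 * i + 2) →
    ∃ (s : ℕ) (h' : s < τ.length), s < t ∧ τ[s] = 2 * i + 1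
  last : ∀ i, i + 1 < n → ∀ (t : ℕ) (h : t < τ.length), (τ[t] = 2 * i ∨ τ[t] = 2 * i + 2) →
    ∃ (s : ℕ) (h' : s < τ.length), t < s ∧ τ[s] = 2 * i + 1

end Ladder

/-! ## Colourings of ladders: transitions of the colours of the strands -/

/-- one letter -/
def stepL (j : ℕ) (f : List (Fin 3)) : List (List (Fin 3)) :=
  if j % 2 = 0 then
    [f.set (j / 2) (f.getD (j / 2) 0 + 1), f.set (j / 2) (f.getD (j / 2) 0 + 2)]
  else if f.getD (j / 2) 0 ≠ f.getD (j / 2 + 1) 0 then [f] else []

/-- a word -/
def run : List ℕ → List (Fin 3) → List (List (Fin 3))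
  | [], f => [f]
  | j :: u, f => (stepL j f).flatMap (run u)

/-- equal multiplicities modulo two -/
def PEq (A B : List (List (Fin 3))) : Prop := ∀ f, A.count f % 2 = B.count f % 2

/-- all words of length `n` -/
def allW {α : Type} (l : List α) : ℕ → List (List α)
  | 0 => [[]]
  | n + 1 => l.flatMap fun a => (allW l n).map (a :: ·)

/-- all colourings of `n` strands -/
def allF (n : ℕ) : List (List (Fin 3)) := allW [0, 1, 2] n

/-- the colours of the first two strands are `2` and `0` -/
def startF (f : List (Fin 3)) : Bool := f[0]? == some 2 && f[1]? == some 0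

/-- the colour of a bit -/
def cb (b : Bool) : Fin 3 := if b then 1 else 0

/-- the colours `2, b₀, 2, b₁, 2, …, 2` -/
def ket (b : List Bool) : List (Fin 3) := 2 :: b.flatMap (fun x => [cb x, 2])

/-- shift of a word -/
def sh (k : ℕ) (u : List ℕ) : List ℕ := u.map (· + k)

/-- exchange of two bits: strands `2 x 2 y 2` -/
def SW : List ℕ := [2, 4, 6, 1, 3, 2, 3, 5, 4, 5, 6, 5, 4, 3, 2, 3, 4, 3]
/-- kills `x = y ≠ z` on the strands `z 2 x 2 y` -/
def CL : List ℕ := [2, 4, 6, 1, 3, 4, 5, 4, 3, 5, 4, 3, 2, 4, 1, 3, 4, 3, 7, 6, 7, 7]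
/-- negation of the bit `x` on the strands `2 x` -/
def NT : List ℕ := [2, 1]
/-- equality of the outer strands of `a x b` -/
def EQ : List ℕ := [2, 1, 3, 2, 1, 1]
/-- identity on two strands with different colours, one of which is `2` -/
def AD : List ℕ := [2, 1, 2, 1]

/-- exchange of the bits `i` and `i + 1` -/
def sw (i : ℕ) : List ℕ := sh (4 * i) SW

/-- moves the bit `b + 1` to the position `a ≤ b + 1` -/
def up (a b : ℕ) : List ℕ := (List.range' a (b + 1 - a)).reverse.flatMap sw

/-- moves the bit `a` to the position `b + 1` -/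
def down (a b : ℕ) : List ℕ := (List.range' a (b + 1 - a)).flatMap sw

/-- the word of a literal `l` of the clause number `j` (there are `m` clauses) -/
def lit (m j : ℕ) (l : ℕ × Bool) : List ℕ :=
  up 1 j ++ up 2 (m + l.1) ++ (if l.2 then [] else sh 8 NT) ++ sh 2 CL ++
    (if l.2 then [] else sh 8 NT) ++ down 2 (m + l.1) ++ down 1 j

/-- the rungs between all strands: `2 K` rungs -/
def col (K : ℕ) : List ℕ := (List.range (2 * K)).map fun i => 2 * i + 1

/-- all strands with even number are equal -/
def eqs (K : ℕ) : List ℕ := (List.range K).flatMap fun i => sh (4 * i) EQ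

/-- every strand is continued -/
def adv (K : ℕ) : List ℕ := [0, 1, 0, 1] ++
  (List.range K).flatMap fun i => sh (4 * i) AD ++ sh (4 * i + 2) AD

/-- the words of all literals -/
def body (Φ : CNF) : List ℕ := Φ.zipIdx.flatMap fun C => C.1.flatMap (lit Φ.length C.2)

/-- number of bits: the reference bit, a bit for each clause, a bit for each variable -/
def nbit (V : ℕ) (Φ : CNF) : ℕ := 1 + Φ.length + V

/-- the word of a formula with `V` variables -/
def wordOf (V : ℕ) (Φ : CNF) : List ℕ :=
  [1, 1] ++ col (nbit V Φ) ++ eqs (nbit V Φ) ++ adv (nbit V Φ) ++ body Φ ++ col (nbit V Φ)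

/-! ## Formulas -/

/-- the variables are among the first `V` ones -/
def Bdd (V : ℕ) (Φ : CNF) : Prop := ∀ C ∈ Φ, ∀ l ∈ C, l.1 < V

/-- number of satisfying assignments of `V` variables -/
noncomputable def nSat (V : ℕ) (Φ : CNF) : ℕ :=
  {b : List Bool | b.length = V ∧ ∀ C ∈ Φ, ∃ l ∈ C, b[l.1]? = some l.2}.ncard

/-- encoding of a formula with `V` variables -/
def encI (V : ℕ) (Φ : CNF) : List CNFLetter := List.replicate V .tick ++ encodeCNF Φ

/-- encoding of the word of a ladder -/
def encT (τ : List ℕ) : List Bool := τ.flatMap fun j => List.replicate j true ++ [false]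

/-- variables of `dup`: assignment number `i` -/
def dx (V i v : ℕ) : ℕ := i * V + v
/-- variables of `dup`: the assignment number `i` is present -/
def df (V q i : ℕ) : ℕ := q * V + i
/-- variables of `dup`: the assignments `i` and `i + 1` agree in the first `v` variables -/
def de (V q i v : ℕ) : ℕ := q * V + q + i * (V + 1) + v

/-- number of variables of `dup` -/
def dupV (q V : ℕ) : ℕ := q * V + q + (q - 1) * (V + 1)

/-- The satisfying assignments of this formula are the strictly decreasing sequences (for the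
lexicographic order) of `s` satisfying assignments of `Φ`, `1 ≤ s ≤ q`. -/
def dup (q V : ℕ) (Φ : CNF) : CNF :=
  (List.range q).flatMap (fun i =>
    (Φ.map fun C => (df V q i, false) :: C.map fun l => (dx V i l.1, l.2)) ++
    (List.range V).map (fun v => [(df V q i, true), (dx V i v, false)])) ++
  [[(df V q 0, true)]] ++
  (List.range (q - 1)).flatMap (fun i =>
    [[(df V q (i + 1), false), (df V q i, true)], [(de V q i 0, true)],
      [(df V q (i + 1), false), (de V q i V, false)]] ++
    (List.range V).flatMap (fun v =>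
      [[(de V q i (v + 1), false), (de V q i v, true)],
       [(de V q i (v + 1), false), (dx V i v, true), (dx V (i + 1) v, false)],
       [(de V q i (v + 1), false), (dx V i v, false), (dx V (i + 1) v, true)],
       [(de V q i (v + 1), true), (de V q i v, false), (dx V i v, true), (dx V (i + 1) v, true)],
       [(de V q i (v + 1), true), (de V q i v, false), (dx V i v, false), (dx V (i + 1) v, false)],
       [(df V q (i + 1), false), (de V q i v, false), (de V q i (v + 1), true),
         (dx V i v, true)]]))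

/-! ## The graph of a word, with vertices `0, 1, 2, …` -/

/-- the number of a corner -/
def numF {m : ℕ} (x : Fl (Fin m)) : ℕ :=
  4 * x.1 + (if x.2.1 then 2 else 0) + (if x.2.2 then 1 else 0)

/-- number of vertices, with `k` hexagons -/
def nVert (τ : List ℕ) (k : ℕ) : ℕ := 4 * τ.length + 6 * k

/-- the number of the neighbour of the vertex `1` along the edge of colour `i` -/
def nbr (τ : List ℕ) : ℕ → Fin 3 → ℕ
  | 0, 0 => 3
  | 0, 1 => 4
  | 0, 2 => 0
  | k + 1, i => nVert τ k + 2 * i + 1

/-- adjacency, after `k` insertions of a hexagon around the vertex `1` -/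
def adjN (τ : List ℕ) : ℕ → ℕ → ℕ → Prop
  | 0, u, v => ∃ x y : Fl (Fin τ.length), numF x = u ∧ numF y = v ∧
      (y = f0 x ∨ y = f2 x ∨ Rail τ x y)
  | k + 1, u, v =>
      (u < nVert τ k ∧ v < nVert τ k ∧ u ≠ 1 ∧ v ≠ 1 ∧ adjN τ k u v) ∨
      (∃ i : Fin 3, (u = 1 ∧ v = nVert τ k + 2 * i + 1) ∨ (v = 1 ∧ u = nVert τ k + 2 * i + 1)) ∨
      (∃ i : Fin 3, (u = nbr τ k i ∧ v = nVert τ k + 2 * i) ∨
        (v = nbr τ k i ∧ u = nVert τ k + 2 * i)) ∨
      (∃ i j : Fin 3, i ≠ j ∧ ((u = nVert τ k + 2 * i ∧ v = nVert τ k + 2 * j + 1) ∨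
        (v = nVert τ k + 2 * i ∧ u = nVert τ k + 2 * j + 1)))

open Classical in
/-- the adjacency matrix -/
noncomputable def encA (N : ℕ) (adj : ℕ → ℕ → Prop) : List (Option Bool) :=
  (List.range N).flatMap fun u => none :: (List.range N).map fun v => some (decide (adj u v))

end Pool.Agent.HMC
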